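import Pool.Agent.R974.BW.Defs

/-!
Project BW (MP_0f8574_pr), piece LAW: the limit of the window laws.
-/

set_option autoImplicit false

namespace Pool.Agent.R186.BWLaw

open MeasureTheory ProbabilityTheory Filter Topology Set
open Pool.Agent.R967.FB Pool.Agent.R974.BW
open scoped ENNReal NNReal

/-- the shifted list -/
noncomputable def sl (ε : ℝ) (L : List (ℝ≥0 × (ℝ → ℝ≥0∞))) : List (ℝ≥0 × (ℝ → ℝ≥0∞)) :=
  L.map fun p => (p.1, fun y => p.2 (y - ε))

lemma total_sl (ε : ℝ) (L : List (ℝ≥0 × (ℝ → ℝ≥0∞))) : total (sl ε L) = total L := by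
  unfold total sl
  rw [List.map_map]
  rfl

lemma PP_sl (ε : ℝ) (f : ℝ≥0 → ℝ) : ∀ (L : List (ℝ≥0 × (ℝ → ℝ≥0∞))) (t : ℝ≥0),
    PP (sl ε L) t (fun s => ε + f s) = PP L t f := by
  intro L
  induction L with
  | nil => intro t; rfl
  | cons p L ih =>
    intro t
    change p.2 (ε + f (t + p.1) - ε) * PP (sl ε L) (t + p.1) (fun s => ε + f s) =
      p.2 (f (t + p.1)) * PP L (t + p.1) f
    rw [ih, add_sub_cancel_left]

lemma NK_congr {ψ ψ' : ℝ → ℝ≥0∞} (h : ∀ y : ℝ, 0 < y → ψ y = ψ' y) :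
    ∀ (L : List (ℝ≥0 × (ℝ → ℝ≥0∞))) (x : ℝ), 0 < x → NK L ψ x = NK L ψ' x := by
  intro L
  induction L with
  | nil => intro x hx; exact h x hx
  | cons p L ih =>
    intro x _
    change ∫⁻ y in Ioi 0, ENNReal.ofReal (hk p.1 x y) * (p.2 y * NK L ψ y) =
      ∫⁻ y in Ioi 0, ENNReal.ofReal (hk p.1 x y) * (p.2 y * NK L ψ' y)
    refine setLIntegral_congr_fun measurableSet_Ioi fun y hy => ?_
    rw [ih y hy]

lemma ae_zero {W : Measure Pth} (hW : IsWiener W) : ∀ᵐ w ∂W, w 0 = 0 :=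
  hW.toIsPreBrownianReal.eval_zero_ae_eq_zero

theorem t_LAW (hMK : S_MK) (hPFP : S_PFP) (hBF : S_BF) (hLIM : S_LIM) : S_LAW := by
  intro W hW h h₀ C L hm hm₀ hb ht hL hgood htot
  obtain ⟨⟨s, φ⟩, L', rfl⟩ : ∃ a L', L = a :: L' := List.exists_cons_of_ne_nil hL
  have hs : 0 < s := (hgood (s, φ) (List.mem_cons_self)).1
  have hφ : Cb φ := (hgood (s, φ) (List.mem_cons_self)).2
  have hg' : ∀ p ∈ L', 0 < p.1 ∧ Measurable p.2 := fun p hp =>
    ⟨(hgood p (List.mem_cons_of_mem _ hp)).1, (hgood p (List.mem_cons_of_mem _ hp)).2.1.measurable⟩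
  -- right-hand side
  have hR : ∫⁻ p, PP ((s, φ) :: L') 0 (Rad p) *
      (ENNReal.ofReal (1 / Rad p 1) * h₀ (Rad p 1)) ∂(W3 W) =
      ∫⁻ y in Ioi 0, ENNReal.ofReal (ent s y) * (φ y * NK L' h₀ y) := by
    have h1 := hBF W hW s φ L' (fun y => ENNReal.ofReal (1 / y) * h₀ y) hs hφ.1.measurable hg'
      (by
        refine Measurable.mul ?_ hm₀
        exact ENNReal.measurable_ofReal.comp (measurable_const.div measurable_id))
    rw [htot] at h1
    rw [h1]
    refine setLIntegral_congr_fun measurableSet_Ioi fun y hy => ?_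
    have h2 : NK L' (fun z => ENNReal.ofReal z * (ENNReal.ofReal (1 / z) * h₀ z)) y =
        NK L' h₀ y := by
      refine NK_congr (fun z hz => ?_) L' y hy
      rw [← mul_assoc, ← ENNReal.ofReal_mul hz.le, mul_one_div_cancel hz.ne']
      simp
    rw [h2]
  rw [hR]
  have hlim := hLIM s φ L' h h₀ C hgood hm hm₀ hb ht
  refine hlim.congr' ?_
  filter_upwards [self_mem_nhdsWithin] with ε hε
  have hε0 : (0 : ℝ) < ε := hε
  have hMK1 := hMK W hW (sl ε ((s, φ) :: L')) (h ε) ε (by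
    intro p hp
    unfold sl at hp
    rw [List.mem_map] at hp
    obtain ⟨q, hq, rfl⟩ := hp
    refine ⟨(hgood q hq).1, ?_⟩
    exact (hgood q hq).2.1.measurable.comp (measurable_id.sub_const ε)) (hm ε) hε0
  change ENNReal.ofReal (1 / ε) * NK (sl ε ((s, φ) :: L')) (h ε) ε = _
  rw [← hMK1, ← lintegral_const_mul' _ _ ENNReal.ofReal_ne_top]
  refine lintegral_congr_ae ?_
  filter_upwards [ae_zero hW] with w hw
  rw [hPFP _ (h ε) ε w hε0 hw, total_sl, htot]
  unfold fw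
  by_cases hU : w ∈ Up ε 1
  · rw [indicator_of_mem hU, indicator_of_mem hU, PP_sl, add_comm ε (w 1)]
    ring
  · rw [indicator_of_notMem hU, indicator_of_notMem hU]
    simp

end Pool.Agent.R186.BWLaw
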