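import Pool.Agent.R59.DA.Stm

/-!
Project DA (MP_cbc67c_co), piece HOE: a Chernoff bound in counting form.
-/

set_option autoImplicit false

namespace Pool.Agent.R186.DAHoe

open R59.DA
open scoped Classical

lemma exp_neg_le {δ : ℝ} (h0 : 0 ≤ δ) : Real.exp (-δ) ≤ 1 - δ + δ ^ 2 / 2 := by
  have h1 := Real.quadratic_le_exp_of_nonneg h0
  have hpos : 0 < 1 + δ + δ ^ 2 / 2 := by positivity
  have h2 : Real.exp (-δ) ≤ (1 + δ + δ ^ 2 / 2)⁻¹ := by
    rw [Real.exp_neg]
    exact inv_anti₀ hpos h1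
  refine h2.trans ?_
  rw [inv_le_iff_one_le_mul₀ hpos]
  nlinarith [sq_nonneg (δ ^ 2)]

theorem hoe : SHOE := by
  intro X _ N m p δ h0 h1 hN
  set c : ℝ := (Fintype.card X : ℝ) with hc
  set f : X → ℝ := fun x => if x ∈ N then Real.exp (-δ) else 1 with hf
  have hfpos : ∀ x, 0 < f x := by
    intro x
    simp only [hf]
    split_ifs
    · exact Real.exp_pos _
    · exact one_pos
  -- the value of the sum
  have hsum : ∑ x, f x = c - N.card * (1 - Real.exp (-δ)) := by
    have : ∀ x, f x = 1 - (if x ∈ N then (1 - Real.exp (-δ)) else 0) := by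
      intro x
      simp only [hf]
      split_ifs <;> ring
    rw [Finset.sum_congr rfl fun x _ => this x, Finset.sum_sub_distrib]
    simp [hc]
    ring
  have hcard : (N.card : ℝ) ≤ c := by
    rw [hc]
    exact_mod_cast Finset.card_le_univ N
  have hc0 : 0 ≤ c := by rw [hc]; positivity
  have hbound : ∑ x, f x ≤ c * Real.exp (-(p * δ) - δ ^ 2 / 2) := by
    rcases hc0.eq_or_lt with h | hcpos
    · rw [hsum, ← h]
      have hn0 : (N.card : ℝ) = 0 := le_antisymm (by rw [← h] at hcard; exact hcard) (by positivity)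
      rw [hn0]
      simp
    · have hexp := exp_neg_le h0
      have hn0 : (0 : ℝ) ≤ N.card := by positivity
      have e1 : ∑ x, f x ≤ c - N.card * δ + c * (δ ^ 2 / 2) := by
        rw [hsum]
        nlinarith [mul_le_mul_of_nonneg_left hexp hn0,
          mul_le_mul_of_nonneg_right hcard (by positivity : (0 : ℝ) ≤ δ ^ 2 / 2)]
      have e2 : c - N.card * δ + c * (δ ^ 2 / 2) ≤ c * (-(p * δ) - δ ^ 2 / 2 + 1) := by
        nlinarith [mul_le_mul_of_nonneg_right hN h0]
      refine (e1.trans e2).trans ?_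
      exact mul_le_mul_of_nonneg_left (Real.add_one_le_exp _) hc0
  have hpow : ∑ s : Fin m → X, ∏ j, f (s j) ≤
      (c * Real.exp (-(p * δ) - δ ^ 2 / 2)) ^ m := by
    rw [← Fintype.sum_pow]
    exact pow_le_pow_left₀ (Finset.sum_nonneg fun x _ => (hfpos x).le) hbound m
  have hprod : ∀ s : Fin m → X, ∏ j, f (s j) =
      Real.exp (-δ * ((Finset.univ.filter (fun j : Fin m => s j ∈ N)).card : ℝ)) := by
    intro s
    simp only [hf]
    rw [Finset.prod_ite, Finset.prod_const, Finset.prod_const_one, mul_one, ← Real.exp_nat_mul]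
    congr 1
    ring
  set B := Finset.univ.filter (fun s : Fin m → X =>
      ((Finset.univ.filter (fun j : Fin m => s j ∈ N)).card : ℝ) < p * m) with hB
  have hlow : (B.card : ℝ) * Real.exp (-δ * (p * m)) ≤ ∑ s : Fin m → X, ∏ j, f (s j) := by
    calc (B.card : ℝ) * Real.exp (-δ * (p * m)) = ∑ _s ∈ B, Real.exp (-δ * (p * m)) := by
          rw [Finset.sum_const, nsmul_eq_mul]
      _ ≤ ∑ s ∈ B, ∏ j, f (s j) := by
          refine Finset.sum_le_sum fun s hs => ?_
          rw [hprod s]
          apply Real.exp_le_exp.2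
          have hs' := (Finset.mem_filter.1 hs).2
          nlinarith [mul_le_mul_of_nonneg_left hs'.le h0]
      _ ≤ ∑ s : Fin m → X, ∏ j, f (s j) := by
          refine Finset.sum_le_sum_of_subset_of_nonneg (Finset.subset_univ _) fun s _ _ => ?_
          exact Finset.prod_nonneg fun j _ => (hfpos _).le
  have hfin := hlow.trans hpow
  rw [mul_pow, ← Real.exp_nat_mul] at hfin
  have hE : Real.exp ((m : ℝ) * (-(p * δ) - δ ^ 2 / 2)) =
      Real.exp (-(δ ^ 2 * m / 2)) * Real.exp (-δ * (p * m)) := by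
    rw [← Real.exp_add]
    congr 1
    ring
  rw [hE] at hfin
  have hpos := Real.exp_pos (-δ * (p * m))
  have : (B.card : ℝ) * Real.exp (-δ * (p * m)) ≤
      (Real.exp (-(δ ^ 2 * m / 2)) * c ^ m) * Real.exp (-δ * (p * m)) := by
    calc _ ≤ _ := hfin
      _ = _ := by ring
  exact le_of_mul_le_mul_right this hpos

end Pool.Agent.R186.DAHoe
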