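import Mathlib

/-!
# Binary search trees of natural numbers, for kernel computations
-/

set_option autoImplicit false

namespace Pool.Agent.R186

/-- Binary trees of natural numbers. -/
inductive NatTree : Type
  | leaf : NatTree
  | node (l : NatTree) (v : ℕ) (r : NatTree) : NatTree

namespace NatTree

/-- membership (by binary search) -/
def mem : NatTree → ℕ → Bool
  | leaf, _ => false
  | node l v r, m => bif Nat.blt m v then mem l m else (bif Nat.beq m v then true else mem r m)

/-- a test for all entries -/
def all (p : ℕ → Bool) : NatTree → Bool
  | leaf => true
  | node l v r => p v && (all p l && all p r)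

theorem of_all {p : ℕ → Bool} {t : NatTree} (h : t.all p = true) {m : ℕ} (hm : t.mem m = true) :
    p m = true := by
  induction t with
  | leaf => exact absurd hm (by simp [mem])
  | node l v r ihl ihr =>
    rw [all, Bool.and_eq_true, Bool.and_eq_true] at h
    rw [mem] at hm
    cases h1 : Nat.blt m v with
    | true =>
      rw [h1, cond_true] at hm
      exact ihl h.2.1 hm
    | false =>
      rw [h1, cond_false] at hm
      cases h2 : Nat.beq m v with
      | true =>
        have := Nat.eq_of_beq_eq_true h2
        subst this
        exact h.1
      | false =>
        rw [h2, cond_false] at hm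
        exact ihr h.2.2 hm

end NatTree

/-- Binary trees of natural numbers with values. -/
inductive NatMap : Type
  | leaf : NatMap
  | node (l : NatMap) (k : ℕ) (v : ℕ) (r : NatMap) : NatMap

namespace NatMap

/-- look up the value of a key (by binary search), with a default value -/
def get (d : ℕ) : NatMap → ℕ → ℕ
  | leaf, _ => d
  | node l k v r, m => bif Nat.blt m k then get d l m else (bif Nat.beq m k then v else get d r m)

/-- a test for all entries -/
def all (p : ℕ → ℕ → Bool) : NatMap → Bool
  | leaf => true
  | node l k v r => p k v && (all p l && all p r)

theorem of_all {p : ℕ → ℕ → Bool} {d : ℕ} {t : NatMap} (h : t.all p = true) (m : ℕ) :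
    t.get d m = d ∨ p m (t.get d m) = true := by
  induction t with
  | leaf => exact Or.inl rfl
  | node l k v r ihl ihr =>
    rw [all, Bool.and_eq_true, Bool.and_eq_true] at h
    rw [get]
    cases h1 : Nat.blt m k with
    | true =>
      rw [cond_true]
      exact ihl h.2.1
    | false =>
      rw [cond_false]
      cases h2 : Nat.beq m k with
      | true =>
        have := Nat.eq_of_beq_eq_true h2
        subst this
        exact Or.inr h.1
      | false =>
        rw [cond_false]
        exact ihr h.2.2

end NatMap

end Pool.Agent.R186
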