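import Mathlib

/-!
# The outcome pattern of the two-dimensional subtraction game `{(0,1),(1,0),(1,1),(2,4),(4,2)}`

Positions are described by the time `s = x + y` and by `d = |x - y|`.  The times are cut into
cycles; the cycle `j` starts at the time `10 j² + 24 j + 18` and lasts `20 j + 34` units.  At the
time `t = 10 a + r` of the cycle `j` the position `d = 4 e + i` is a P-position iff `G j a e r i`.
-/

set_option autoImplicit false

namespace Pool.Agent.R186.Sub2D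

/-- the pattern in the band around the diagonal -/
def near (a b e : ℤ) : ℕ → ℕ → Prop
  | 0, 0 => e ≤ a ∨ b ≤ e
  | 0, 2 => b ≤ e
  | 1, 1 => a + 1 ≤ e
  | 3, 1 => e ≤ a ∧ e ≤ b - 1
  | 3, 3 => True
  | 5, 1 => b ≤ e
  | 6, 0 => e ≤ b - 1 ∨ a + 1 ≤ e
  | 6, 2 => a + 1 ≤ e
  | 7, 3 => b - 1 ≤ e
  | 8, 2 => e ≤ a ∧ e ≤ b - 2
  | 9, 3 => a + 1 ≤ e
  | _, _ => False

/-- the position `4 * e + i` lies in the band at the time `10 * a + r` of the cycle `j` -/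
def isNear (j a e : ℤ) (r i : ℕ) : Prop :=
  e ≤ j ∨ (e = j + 1 ∧ (i ≤ 1 ∨ j + 2 ≤ a ∨ (a = j + 1 ∧ 7 ≤ r)))

/-- the pattern outside the band -/
def far (E : ℤ) : ℕ → ℕ → Prop
  | 0, 0 => E % 5 = 0
  | 2, 0 => E % 5 = 3
  | 4, 0 => E % 5 = 1
  | 6, 0 => E % 5 = 4
  | 8, 0 => E % 5 = 2
  | 1, 1 => E % 5 = 4
  | 3, 1 => E % 5 = 2
  | 5, 1 => E % 5 = 0
  | 7, 1 => E % 5 = 3
  | 9, 1 => E % 5 = 1
  | 0, 2 => E % 5 = 2
  | 2, 2 => E % 5 = 0
  | 4, 2 => E % 5 = 3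
  | 6, 2 => E % 5 = 1
  | 8, 2 => E % 5 = 4
  | 1, 3 => E % 5 = 1
  | 3, 3 => E % 5 = 4
  | 5, 3 => E % 5 = 2
  | 7, 3 => E % 5 = 0
  | 9, 3 => E % 5 = 3
  | _, _ => False

/-- the outcome pattern -/
def G (j a e : ℤ) (r i : ℕ) : Prop :=
  (isNear j a e r i ∧ near a (2 * j + 3 - a) e r i) ∨ (¬ isNear j a e r i ∧ far (e - j - 2) r i)

theorem rule_0_0 (j a e : ℤ) (hj : 0 ≤ j) (hL : 10 * a + 0 < 20 * j + 34)
    (he : 2 ≤ 4 * e + 0) :
    G j a e 0 0 ↔ ¬ G j (a - 1) (e - 1) 9 3 ∧ ¬ G j (a - 1) e 9 1 ∧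
      ¬ G j (a - 1) e 8 0 ∧ ¬ G j (a - 1) (e - 1) 4 2 ∧ ¬ G j (a - 1) e 4 2 := by
  simp [G, isNear, near, far]
  rcases lt_or_ge e j with h | h
  · omega
  · rcases le_or_gt e (j + 2) with h' | h'
    · obtain h1 | h1 | h1 : e = j ∨ e = j + 1 ∨ e = j + 2 := by omega
      · subst h1; omega
      · subst h1; omega
      · subst h1; omega
    · omega

theorem rule_0_2 (j a e : ℤ) (hj : 0 ≤ j) (hL : 10 * a + 0 < 20 * j + 34)
    (he : 2 ≤ 4 * e + 2) :
    G j a e 0 2 ↔ ¬ G j (a - 1) e 9 1 ∧ ¬ G j (a - 1) e 9 3 ∧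
      ¬ G j (a - 1) e 8 2 ∧ ¬ G j (a - 1) e 4 0 ∧ ¬ G j (a - 1) (e + 1) 4 0 := by
  simp [G, isNear, near, far]
  rcases lt_or_ge e j with h | h
  · omega
  · rcases le_or_gt e (j + 2) with h' | h'
    · obtain h1 | h1 | h1 : e = j ∨ e = j + 1 ∨ e = j + 2 := by omega
      · subst h1; omega
      · subst h1; omega
      · subst h1; omega
    · omega

theorem rule_1_1 (j a e : ℤ) (hj : 0 ≤ j) (hL : 10 * a + 1 < 20 * j + 34)
    (he : 2 ≤ 4 * e + 1) :
    G j a e 1 1 ↔ ¬ G j a e 0 0 ∧ ¬ G j a e 0 2 ∧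
      ¬ G j (a - 1) e 9 1 ∧ ¬ G j (a - 1) (e - 1) 5 3 ∧ ¬ G j (a - 1) e 5 3 := by
  simp [G, isNear, near, far]
  rcases lt_or_ge e j with h | h
  · omega
  · rcases le_or_gt e (j + 2) with h' | h'
    · obtain h1 | h1 | h1 : e = j ∨ e = j + 1 ∨ e = j + 2 := by omega
      · subst h1; omega
      · subst h1; omega
      · subst h1; omega
    · omega

theorem rule_1_3 (j a e : ℤ) (hj : 0 ≤ j) (hL : 10 * a + 1 < 20 * j + 34)
    (he : 2 ≤ 4 * e + 3) :
    G j a e 1 3 ↔ ¬ G j a e 0 2 ∧ ¬ G j a (e + 1) 0 0 ∧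
      ¬ G j (a - 1) e 9 3 ∧ ¬ G j (a - 1) e 5 1 ∧ ¬ G j (a - 1) (e + 1) 5 1 := by
  simp [G, isNear, near, far]
  rcases lt_or_ge e j with h | h
  · omega
  · rcases le_or_gt e (j + 2) with h' | h'
    · obtain h1 | h1 | h1 : e = j ∨ e = j + 1 ∨ e = j + 2 := by omega
      · subst h1; omega
      · subst h1; omega
      · subst h1; omega
    · omega

theorem rule_2_0 (j a e : ℤ) (hj : 0 ≤ j) (hL : 10 * a + 2 < 20 * j + 34)
    (he : 2 ≤ 4 * e + 0) :
    G j a e 2 0 ↔ ¬ G j a (e - 1) 1 3 ∧ ¬ G j a e 1 1 ∧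
      ¬ G j a e 0 0 ∧ ¬ G j (a - 1) (e - 1) 6 2 ∧ ¬ G j (a - 1) e 6 2 := by
  simp [G, isNear, near, far]
  rcases lt_or_ge e j with h | h
  · omega
  · rcases le_or_gt e (j + 2) with h' | h'
    · obtain h1 | h1 | h1 : e = j ∨ e = j + 1 ∨ e = j + 2 := by omega
      · subst h1; omega
      · subst h1; omega
      · subst h1; omega
    · omega

theorem rule_2_2 (j a e : ℤ) (hj : 0 ≤ j) (hL : 10 * a + 2 < 20 * j + 34)
    (he : 2 ≤ 4 * e + 2) :
    G j a e 2 2 ↔ ¬ G j a e 1 1 ∧ ¬ G j a e 1 3 ∧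
      ¬ G j a e 0 2 ∧ ¬ G j (a - 1) e 6 0 ∧ ¬ G j (a - 1) (e + 1) 6 0 := by
  simp [G, isNear, near, far]
  rcases lt_or_ge e j with h | h
  · omega
  · rcases le_or_gt e (j + 2) with h' | h'
    · obtain h1 | h1 | h1 : e = j ∨ e = j + 1 ∨ e = j + 2 := by omega
      · subst h1; omega
      · subst h1; omega
      · subst h1; omega
    · omega

theorem rule_3_1 (j a e : ℤ) (hj : 0 ≤ j) (hL : 10 * a + 3 < 20 * j + 34)
    (he : 2 ≤ 4 * e + 1) :
    G j a e 3 1 ↔ ¬ G j a e 2 0 ∧ ¬ G j a e 2 2 ∧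
      ¬ G j a e 1 1 ∧ ¬ G j (a - 1) (e - 1) 7 3 ∧ ¬ G j (a - 1) e 7 3 := by
  simp [G, isNear, near, far]
  rcases lt_or_ge e j with h | h
  · omega
  · rcases le_or_gt e (j + 2) with h' | h'
    · obtain h1 | h1 | h1 : e = j ∨ e = j + 1 ∨ e = j + 2 := by omega
      · subst h1; omega
      · subst h1; omega
      · subst h1; omega
    · omega

theorem rule_3_3 (j a e : ℤ) (hj : 0 ≤ j) (hL : 10 * a + 3 < 20 * j + 34)
    (he : 2 ≤ 4 * e + 3) :
    G j a e 3 3 ↔ ¬ G j a e 2 2 ∧ ¬ G j a (e + 1) 2 0 ∧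
      ¬ G j a e 1 3 ∧ ¬ G j (a - 1) e 7 1 ∧ ¬ G j (a - 1) (e + 1) 7 1 := by
  simp [G, isNear, near, far]
  rcases lt_or_ge e j with h | h
  · omega
  · rcases le_or_gt e (j + 2) with h' | h'
    · obtain h1 | h1 | h1 : e = j ∨ e = j + 1 ∨ e = j + 2 := by omega
      · subst h1; omega
      · subst h1; omega
      · subst h1; omega
    · omega

theorem rule_4_0 (j a e : ℤ) (hj : 0 ≤ j) (hL : 10 * a + 4 < 20 * j + 34)
    (he : 2 ≤ 4 * e + 0) :
    G j a e 4 0 ↔ ¬ G j a (e - 1) 3 3 ∧ ¬ G j a e 3 1 ∧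
      ¬ G j a e 2 0 ∧ ¬ G j (a - 1) (e - 1) 8 2 ∧ ¬ G j (a - 1) e 8 2 := by
  simp [G, isNear, near, far]
  rcases lt_or_ge e j with h | h
  · omega
  · rcases le_or_gt e (j + 2) with h' | h'
    · obtain h1 | h1 | h1 : e = j ∨ e = j + 1 ∨ e = j + 2 := by omega
      · subst h1; omega
      · subst h1; omega
      · subst h1; omega
    · omega

theorem rule_4_2 (j a e : ℤ) (hj : 0 ≤ j) (hL : 10 * a + 4 < 20 * j + 34)
    (he : 2 ≤ 4 * e + 2) :
    G j a e 4 2 ↔ ¬ G j a e 3 1 ∧ ¬ G j a e 3 3 ∧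
      ¬ G j a e 2 2 ∧ ¬ G j (a - 1) e 8 0 ∧ ¬ G j (a - 1) (e + 1) 8 0 := by
  simp [G, isNear, near, far]
  rcases lt_or_ge e j with h | h
  · omega
  · rcases le_or_gt e (j + 2) with h' | h'
    · obtain h1 | h1 | h1 : e = j ∨ e = j + 1 ∨ e = j + 2 := by omega
      · subst h1; omega
      · subst h1; omega
      · subst h1; omega
    · omega

theorem rule_5_1 (j a e : ℤ) (hj : 0 ≤ j) (hL : 10 * a + 5 < 20 * j + 34)
    (he : 2 ≤ 4 * e + 1) :
    G j a e 5 1 ↔ ¬ G j a e 4 0 ∧ ¬ G j a e 4 2 ∧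
      ¬ G j a e 3 1 ∧ ¬ G j (a - 1) (e - 1) 9 3 ∧ ¬ G j (a - 1) e 9 3 := by
  simp [G, isNear, near, far]
  rcases lt_or_ge e j with h | h
  · omega
  · rcases le_or_gt e (j + 2) with h' | h'
    · obtain h1 | h1 | h1 : e = j ∨ e = j + 1 ∨ e = j + 2 := by omega
      · subst h1; omega
      · subst h1; omega
      · subst h1; omega
    · omega

theorem rule_5_3 (j a e : ℤ) (hj : 0 ≤ j) (hL : 10 * a + 5 < 20 * j + 34)
    (he : 2 ≤ 4 * e + 3) :
    G j a e 5 3 ↔ ¬ G j a e 4 2 ∧ ¬ G j a (e + 1) 4 0 ∧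
      ¬ G j a e 3 3 ∧ ¬ G j (a - 1) e 9 1 ∧ ¬ G j (a - 1) (e + 1) 9 1 := by
  simp [G, isNear, near, far]
  rcases lt_or_ge e j with h | h
  · omega
  · rcases le_or_gt e (j + 2) with h' | h'
    · obtain h1 | h1 | h1 : e = j ∨ e = j + 1 ∨ e = j + 2 := by omega
      · subst h1; omega
      · subst h1; omega
      · subst h1; omega
    · omega

theorem rule_6_0 (j a e : ℤ) (hj : 0 ≤ j) (hL : 10 * a + 6 < 20 * j + 34)
    (he : 2 ≤ 4 * e + 0) :
    G j a e 6 0 ↔ ¬ G j a (e - 1) 5 3 ∧ ¬ G j a e 5 1 ∧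
      ¬ G j a e 4 0 ∧ ¬ G j a (e - 1) 0 2 ∧ ¬ G j a e 0 2 := by
  simp [G, isNear, near, far]
  rcases lt_or_ge e j with h | h
  · omega
  · rcases le_or_gt e (j + 2) with h' | h'
    · obtain h1 | h1 | h1 : e = j ∨ e = j + 1 ∨ e = j + 2 := by omega
      · subst h1; omega
      · subst h1; omega
      · subst h1; omega
    · omega

theorem rule_6_2 (j a e : ℤ) (hj : 0 ≤ j) (hL : 10 * a + 6 < 20 * j + 34)
    (he : 2 ≤ 4 * e + 2) :
    G j a e 6 2 ↔ ¬ G j a e 5 1 ∧ ¬ G j a e 5 3 ∧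
      ¬ G j a e 4 2 ∧ ¬ G j a e 0 0 ∧ ¬ G j a (e + 1) 0 0 := by
  simp [G, isNear, near, far]
  rcases lt_or_ge e j with h | h
  · omega
  · rcases le_or_gt e (j + 2) with h' | h'
    · obtain h1 | h1 | h1 : e = j ∨ e = j + 1 ∨ e = j + 2 := by omega
      · subst h1; omega
      · subst h1; omega
      · subst h1; omega
    · omega

theorem rule_7_1 (j a e : ℤ) (hj : 0 ≤ j) (hL : 10 * a + 7 < 20 * j + 34)
    (he : 2 ≤ 4 * e + 1) :
    G j a e 7 1 ↔ ¬ G j a e 6 0 ∧ ¬ G j a e 6 2 ∧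
      ¬ G j a e 5 1 ∧ ¬ G j a (e - 1) 1 3 ∧ ¬ G j a e 1 3 := by
  simp [G, isNear, near, far]
  rcases lt_or_ge e j with h | h
  · omega
  · rcases le_or_gt e (j + 2) with h' | h'
    · obtain h1 | h1 | h1 : e = j ∨ e = j + 1 ∨ e = j + 2 := by omega
      · subst h1; omega
      · subst h1; omega
      · subst h1; omega
    · omega

theorem rule_7_3 (j a e : ℤ) (hj : 0 ≤ j) (hL : 10 * a + 7 < 20 * j + 34)
    (he : 2 ≤ 4 * e + 3) :
    G j a e 7 3 ↔ ¬ G j a e 6 2 ∧ ¬ G j a (e + 1) 6 0 ∧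
      ¬ G j a e 5 3 ∧ ¬ G j a e 1 1 ∧ ¬ G j a (e + 1) 1 1 := by
  simp [G, isNear, near, far]
  rcases lt_or_ge e j with h | h
  · omega
  · rcases le_or_gt e (j + 2) with h' | h'
    · obtain h1 | h1 | h1 : e = j ∨ e = j + 1 ∨ e = j + 2 := by omega
      · subst h1; omega
      · subst h1; omega
      · subst h1; omega
    · omega

theorem rule_8_0 (j a e : ℤ) (hj : 0 ≤ j) (hL : 10 * a + 8 < 20 * j + 34)
    (he : 2 ≤ 4 * e + 0) :
    G j a e 8 0 ↔ ¬ G j a (e - 1) 7 3 ∧ ¬ G j a e 7 1 ∧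
      ¬ G j a e 6 0 ∧ ¬ G j a (e - 1) 2 2 ∧ ¬ G j a e 2 2 := by
  simp [G, isNear, near, far]
  rcases lt_or_ge e j with h | h
  · omega
  · rcases le_or_gt e (j + 2) with h' | h'
    · obtain h1 | h1 | h1 : e = j ∨ e = j + 1 ∨ e = j + 2 := by omega
      · subst h1; omega
      · subst h1; omega
      · subst h1; omega
    · omega

theorem rule_8_2 (j a e : ℤ) (hj : 0 ≤ j) (hL : 10 * a + 8 < 20 * j + 34)
    (he : 2 ≤ 4 * e + 2) :
    G j a e 8 2 ↔ ¬ G j a e 7 1 ∧ ¬ G j a e 7 3 ∧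
      ¬ G j a e 6 2 ∧ ¬ G j a e 2 0 ∧ ¬ G j a (e + 1) 2 0 := by
  simp [G, isNear, near, far]
  rcases lt_or_ge e j with h | h
  · omega
  · rcases le_or_gt e (j + 2) with h' | h'
    · obtain h1 | h1 | h1 : e = j ∨ e = j + 1 ∨ e = j + 2 := by omega
      · subst h1; omega
      · subst h1; omega
      · subst h1; omega
    · omega

theorem rule_9_1 (j a e : ℤ) (hj : 0 ≤ j) (hL : 10 * a + 9 < 20 * j + 34)
    (he : 2 ≤ 4 * e + 1) :
    G j a e 9 1 ↔ ¬ G j a e 8 0 ∧ ¬ G j a e 8 2 ∧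
      ¬ G j a e 7 1 ∧ ¬ G j a (e - 1) 3 3 ∧ ¬ G j a e 3 3 := by
  simp [G, isNear, near, far]
  rcases lt_or_ge e j with h | h
  · omega
  · rcases le_or_gt e (j + 2) with h' | h'
    · obtain h1 | h1 | h1 : e = j ∨ e = j + 1 ∨ e = j + 2 := by omega
      · subst h1; omega
      · subst h1; omega
      · subst h1; omega
    · omega

theorem rule_9_3 (j a e : ℤ) (hj : 0 ≤ j) (hL : 10 * a + 9 < 20 * j + 34)
    (he : 2 ≤ 4 * e + 3) :
    G j a e 9 3 ↔ ¬ G j a e 8 2 ∧ ¬ G j a (e + 1) 8 0 ∧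
      ¬ G j a e 7 3 ∧ ¬ G j a e 3 1 ∧ ¬ G j a (e + 1) 3 1 := by
  simp [G, isNear, near, far]
  rcases lt_or_ge e j with h | h
  · omega
  · rcases le_or_gt e (j + 2) with h' | h'
    · obtain h1 | h1 | h1 : e = j ∨ e = j + 1 ∨ e = j + 2 := by omega
      · subst h1; omega
      · subst h1; omega
      · subst h1; omega
    · omega

theorem centre_0_0 (j a : ℤ) (_hj : 0 ≤ j) (_hL : 10 * a + 0 < 20 * j + 34)
    (_ht : 0 ≤ 10 * a + 0) :
    G j a 0 0 0 ↔ ¬ G j (a - 1) 0 9 1 ∧ ¬ G j (a - 1) 0 9 1 ∧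
      ¬ G j (a - 1) 0 8 0 ∧ ¬ G j (a - 1) 0 4 2 ∧ ¬ G j (a - 1) 0 4 2 := by
  simp [G, isNear, near, far]
  omega

theorem centre_1_1 (j a : ℤ) (_hj : 0 ≤ j) (_hL : 10 * a + 1 < 20 * j + 34)
    (_ht : 0 ≤ 10 * a + 1) :
    G j a 0 1 1 ↔ ¬ G j a 0 0 0 ∧ ¬ G j a 0 0 2 ∧
      ¬ G j (a - 1) 0 9 1 ∧ ¬ G j (a - 1) 0 5 1 ∧ ¬ G j (a - 1) 0 5 3 := by
  simp [G, isNear, near, far]
  omega

theorem centre_2_0 (j a : ℤ) (_hj : 0 ≤ j) (_hL : 10 * a + 2 < 20 * j + 34)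
    (_ht : 0 ≤ 10 * a + 2) :
    G j a 0 2 0 ↔ ¬ G j a 0 1 1 ∧ ¬ G j a 0 1 1 ∧
      ¬ G j a 0 0 0 ∧ ¬ G j (a - 1) 0 6 2 ∧ ¬ G j (a - 1) 0 6 2 := by
  simp [G, isNear, near, far]
  omega

theorem centre_3_1 (j a : ℤ) (_hj : 0 ≤ j) (_hL : 10 * a + 3 < 20 * j + 34)
    (_ht : 0 ≤ 10 * a + 3) :
    G j a 0 3 1 ↔ ¬ G j a 0 2 0 ∧ ¬ G j a 0 2 2 ∧
      ¬ G j a 0 1 1 ∧ ¬ G j (a - 1) 0 7 1 ∧ ¬ G j (a - 1) 0 7 3 := by
  simp [G, isNear, near, far]
  omega

theorem centre_4_0 (j a : ℤ) (_hj : 0 ≤ j) (_hL : 10 * a + 4 < 20 * j + 34)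
    (_ht : 0 ≤ 10 * a + 4) :
    G j a 0 4 0 ↔ ¬ G j a 0 3 1 ∧ ¬ G j a 0 3 1 ∧
      ¬ G j a 0 2 0 ∧ ¬ G j (a - 1) 0 8 2 ∧ ¬ G j (a - 1) 0 8 2 := by
  simp [G, isNear, near, far]
  omega

theorem centre_5_1 (j a : ℤ) (_hj : 0 ≤ j) (_hL : 10 * a + 5 < 20 * j + 34)
    (_ht : 0 ≤ 10 * a + 5) :
    G j a 0 5 1 ↔ ¬ G j a 0 4 0 ∧ ¬ G j a 0 4 2 ∧
      ¬ G j a 0 3 1 ∧ ¬ G j (a - 1) 0 9 1 ∧ ¬ G j (a - 1) 0 9 3 := by
  simp [G, isNear, near, far]
  omega

theorem centre_6_0 (j a : ℤ) (_hj : 0 ≤ j) (_hL : 10 * a + 6 < 20 * j + 34)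
    (_ht : 0 ≤ 10 * a + 6) :
    G j a 0 6 0 ↔ ¬ G j a 0 5 1 ∧ ¬ G j a 0 5 1 ∧
      ¬ G j a 0 4 0 ∧ ¬ G j a 0 0 2 ∧ ¬ G j a 0 0 2 := by
  simp [G, isNear, near, far]
  omega

theorem centre_7_1 (j a : ℤ) (_hj : 0 ≤ j) (_hL : 10 * a + 7 < 20 * j + 34)
    (_ht : 0 ≤ 10 * a + 7) :
    G j a 0 7 1 ↔ ¬ G j a 0 6 0 ∧ ¬ G j a 0 6 2 ∧
      ¬ G j a 0 5 1 ∧ ¬ G j a 0 1 1 ∧ ¬ G j a 0 1 3 := by
  simp [G, isNear, near, far]
  omega

theorem centre_8_0 (j a : ℤ) (_hj : 0 ≤ j) (_hL : 10 * a + 8 < 20 * j + 34)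
    (_ht : 0 ≤ 10 * a + 8) :
    G j a 0 8 0 ↔ ¬ G j a 0 7 1 ∧ ¬ G j a 0 7 1 ∧
      ¬ G j a 0 6 0 ∧ ¬ G j a 0 2 2 ∧ ¬ G j a 0 2 2 := by
  simp [G, isNear, near, far]
  omega

theorem centre_9_1 (j a : ℤ) (_hj : 0 ≤ j) (_hL : 10 * a + 9 < 20 * j + 34)
    (_ht : 0 ≤ 10 * a + 9) :
    G j a 0 9 1 ↔ ¬ G j a 0 8 0 ∧ ¬ G j a 0 8 2 ∧
      ¬ G j a 0 7 1 ∧ ¬ G j a 0 3 1 ∧ ¬ G j a 0 3 3 := by
  simp [G, isNear, near, far]
  omega

/-- the pattern in terms of the time `t` of the cycle and `d` -/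
def F (j t d : ℤ) : Prop := G j (t / 10) (d / 4) (t % 10).toNat (d % 4).toNat

theorem F_eq (j t d a e : ℤ) (r i : ℕ) (hr : r < 10) (hi : i < 4) (ht : t = 10 * a + r)
    (hd : d = 4 * e + i) : F j t d ↔ G j a e r i := by
  have h1 : t / 10 = a := by omega
  have h2 : (t % 10).toNat = r := by omega
  have h3 : d / 4 = e := by omega
  have h4 : (d % 4).toNat = i := by omega
  rw [F, h1, h2, h3, h4]

/-- the local rule for the pattern -/
theorem F_rule (j t d : ℤ) (hj : 0 ≤ j) (ht : 0 ≤ t) (hL : t < 20 * j + 34) (hd : 2 ≤ d)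
    (hp : (t - d) % 2 = 0) :
    F j t d ↔ ¬ F j (t - 1) (d - 1) ∧ ¬ F j (t - 1) (d + 1) ∧ ¬ F j (t - 2) d ∧
      ¬ F j (t - 6) (d - 2) ∧ ¬ F j (t - 6) (d + 2) := by
  obtain ⟨a, r, hr9, rfl⟩ : ∃ (a : ℤ) (r : ℕ), r < 10 ∧ t = 10 * a + r :=
    ⟨t / 10, (t % 10).toNat, by omega, by omega⟩
  obtain ⟨e, i, hi3, rfl⟩ : ∃ (e : ℤ) (i : ℕ), i < 4 ∧ d = 4 * e + i :=
    ⟨d / 4, (d % 4).toNat, by omega, by omega⟩
  interval_cases r <;> interval_cases i <;> try omega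
  · rw [F_eq j _ _ a e 0 0 (by norm_num) (by norm_num) rfl rfl,
      F_eq j (10 * a + ((0 : ℕ) : ℤ) - 1) (4 * e + ((0 : ℕ) : ℤ) - 1) (a - 1) (e - 1) 9 3 (by norm_num) (by norm_num) (by push_cast; ring) (by push_cast; ring),
      F_eq j (10 * a + ((0 : ℕ) : ℤ) - 1) (4 * e + ((0 : ℕ) : ℤ) + 1) (a - 1) e 9 1 (by norm_num) (by norm_num) (by push_cast; ring) (by push_cast; ring),
      F_eq j (10 * a + ((0 : ℕ) : ℤ) - 2) (4 * e + ((0 : ℕ) : ℤ)) (a - 1) e 8 0 (by norm_num) (by norm_num) (by push_cast; ring) (by push_cast; ring),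
      F_eq j (10 * a + ((0 : ℕ) : ℤ) - 6) (4 * e + ((0 : ℕ) : ℤ) - 2) (a - 1) (e - 1) 4 2 (by norm_num) (by norm_num) (by push_cast; ring) (by push_cast; ring),
      F_eq j (10 * a + ((0 : ℕ) : ℤ) - 6) (4 * e + ((0 : ℕ) : ℤ) + 2) (a - 1) e 4 2 (by norm_num) (by norm_num) (by push_cast; ring) (by push_cast; ring)]
    exact rule_0_0 j a e hj (by omega) (by omega)
  · rw [F_eq j _ _ a e 0 2 (by norm_num) (by norm_num) rfl rfl,
      F_eq j (10 * a + ((0 : ℕ) : ℤ) - 1) (4 * e + ((2 : ℕ) : ℤ) - 1) (a - 1) e 9 1 (by norm_num) (by norm_num) (by push_cast; ring) (by push_cast; ring),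
      F_eq j (10 * a + ((0 : ℕ) : ℤ) - 1) (4 * e + ((2 : ℕ) : ℤ) + 1) (a - 1) e 9 3 (by norm_num) (by norm_num) (by push_cast; ring) (by push_cast; ring),
      F_eq j (10 * a + ((0 : ℕ) : ℤ) - 2) (4 * e + ((2 : ℕ) : ℤ)) (a - 1) e 8 2 (by norm_num) (by norm_num) (by push_cast; ring) (by push_cast; ring),
      F_eq j (10 * a + ((0 : ℕ) : ℤ) - 6) (4 * e + ((2 : ℕ) : ℤ) - 2) (a - 1) e 4 0 (by norm_num) (by norm_num) (by push_cast; ring) (by push_cast; ring),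
      F_eq j (10 * a + ((0 : ℕ) : ℤ) - 6) (4 * e + ((2 : ℕ) : ℤ) + 2) (a - 1) (e + 1) 4 0 (by norm_num) (by norm_num) (by push_cast; ring) (by push_cast; ring)]
    exact rule_0_2 j a e hj (by omega) (by omega)
  · rw [F_eq j _ _ a e 1 1 (by norm_num) (by norm_num) rfl rfl,
      F_eq j (10 * a + ((1 : ℕ) : ℤ) - 1) (4 * e + ((1 : ℕ) : ℤ) - 1) a e 0 0 (by norm_num) (by norm_num) (by push_cast; ring) (by push_cast; ring),
      F_eq j (10 * a + ((1 : ℕ) : ℤ) - 1) (4 * e + ((1 : ℕ) : ℤ) + 1) a e 0 2 (by norm_num) (by norm_num) (by push_cast; ring) (by push_cast; ring),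
      F_eq j (10 * a + ((1 : ℕ) : ℤ) - 2) (4 * e + ((1 : ℕ) : ℤ)) (a - 1) e 9 1 (by norm_num) (by norm_num) (by push_cast; ring) (by push_cast; ring),
      F_eq j (10 * a + ((1 : ℕ) : ℤ) - 6) (4 * e + ((1 : ℕ) : ℤ) - 2) (a - 1) (e - 1) 5 3 (by norm_num) (by norm_num) (by push_cast; ring) (by push_cast; ring),
      F_eq j (10 * a + ((1 : ℕ) : ℤ) - 6) (4 * e + ((1 : ℕ) : ℤ) + 2) (a - 1) e 5 3 (by norm_num) (by norm_num) (by push_cast; ring) (by push_cast; ring)]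
    exact rule_1_1 j a e hj (by omega) (by omega)
  · rw [F_eq j _ _ a e 1 3 (by norm_num) (by norm_num) rfl rfl,
      F_eq j (10 * a + ((1 : ℕ) : ℤ) - 1) (4 * e + ((3 : ℕ) : ℤ) - 1) a e 0 2 (by norm_num) (by norm_num) (by push_cast; ring) (by push_cast; ring),
      F_eq j (10 * a + ((1 : ℕ) : ℤ) - 1) (4 * e + ((3 : ℕ) : ℤ) + 1) a (e + 1) 0 0 (by norm_num) (by norm_num) (by push_cast; ring) (by push_cast; ring),
      F_eq j (10 * a + ((1 : ℕ) : ℤ) - 2) (4 * e + ((3 : ℕ) : ℤ)) (a - 1) e 9 3 (by norm_num) (by norm_num) (by push_cast; ring) (by push_cast; ring),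
      F_eq j (10 * a + ((1 : ℕ) : ℤ) - 6) (4 * e + ((3 : ℕ) : ℤ) - 2) (a - 1) e 5 1 (by norm_num) (by norm_num) (by push_cast; ring) (by push_cast; ring),
      F_eq j (10 * a + ((1 : ℕ) : ℤ) - 6) (4 * e + ((3 : ℕ) : ℤ) + 2) (a - 1) (e + 1) 5 1 (by norm_num) (by norm_num) (by push_cast; ring) (by push_cast; ring)]
    exact rule_1_3 j a e hj (by omega) (by omega)
  · rw [F_eq j _ _ a e 2 0 (by norm_num) (by norm_num) rfl rfl,
      F_eq j (10 * a + ((2 : ℕ) : ℤ) - 1) (4 * e + ((0 : ℕ) : ℤ) - 1) a (e - 1) 1 3 (by norm_num) (by norm_num) (by push_cast; ring) (by push_cast; ring),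
      F_eq j (10 * a + ((2 : ℕ) : ℤ) - 1) (4 * e + ((0 : ℕ) : ℤ) + 1) a e 1 1 (by norm_num) (by norm_num) (by push_cast; ring) (by push_cast; ring),
      F_eq j (10 * a + ((2 : ℕ) : ℤ) - 2) (4 * e + ((0 : ℕ) : ℤ)) a e 0 0 (by norm_num) (by norm_num) (by push_cast; ring) (by push_cast; ring),
      F_eq j (10 * a + ((2 : ℕ) : ℤ) - 6) (4 * e + ((0 : ℕ) : ℤ) - 2) (a - 1) (e - 1) 6 2 (by norm_num) (by norm_num) (by push_cast; ring) (by push_cast; ring),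
      F_eq j (10 * a + ((2 : ℕ) : ℤ) - 6) (4 * e + ((0 : ℕ) : ℤ) + 2) (a - 1) e 6 2 (by norm_num) (by norm_num) (by push_cast; ring) (by push_cast; ring)]
    exact rule_2_0 j a e hj (by omega) (by omega)
  · rw [F_eq j _ _ a e 2 2 (by norm_num) (by norm_num) rfl rfl,
      F_eq j (10 * a + ((2 : ℕ) : ℤ) - 1) (4 * e + ((2 : ℕ) : ℤ) - 1) a e 1 1 (by norm_num) (by norm_num) (by push_cast; ring) (by push_cast; ring),
      F_eq j (10 * a + ((2 : ℕ) : ℤ) - 1) (4 * e + ((2 : ℕ) : ℤ) + 1) a e 1 3 (by norm_num) (by norm_num) (by push_cast; ring) (by push_cast; ring),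
      F_eq j (10 * a + ((2 : ℕ) : ℤ) - 2) (4 * e + ((2 : ℕ) : ℤ)) a e 0 2 (by norm_num) (by norm_num) (by push_cast; ring) (by push_cast; ring),
      F_eq j (10 * a + ((2 : ℕ) : ℤ) - 6) (4 * e + ((2 : ℕ) : ℤ) - 2) (a - 1) e 6 0 (by norm_num) (by norm_num) (by push_cast; ring) (by push_cast; ring),
      F_eq j (10 * a + ((2 : ℕ) : ℤ) - 6) (4 * e + ((2 : ℕ) : ℤ) + 2) (a - 1) (e + 1) 6 0 (by norm_num) (by norm_num) (by push_cast; ring) (by push_cast; ring)]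
    exact rule_2_2 j a e hj (by omega) (by omega)
  · rw [F_eq j _ _ a e 3 1 (by norm_num) (by norm_num) rfl rfl,
      F_eq j (10 * a + ((3 : ℕ) : ℤ) - 1) (4 * e + ((1 : ℕ) : ℤ) - 1) a e 2 0 (by norm_num) (by norm_num) (by push_cast; ring) (by push_cast; ring),
      F_eq j (10 * a + ((3 : ℕ) : ℤ) - 1) (4 * e + ((1 : ℕ) : ℤ) + 1) a e 2 2 (by norm_num) (by norm_num) (by push_cast; ring) (by push_cast; ring),
      F_eq j (10 * a + ((3 : ℕ) : ℤ) - 2) (4 * e + ((1 : ℕ) : ℤ)) a e 1 1 (by norm_num) (by norm_num) (by push_cast; ring) (by push_cast; ring),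
      F_eq j (10 * a + ((3 : ℕ) : ℤ) - 6) (4 * e + ((1 : ℕ) : ℤ) - 2) (a - 1) (e - 1) 7 3 (by norm_num) (by norm_num) (by push_cast; ring) (by push_cast; ring),
      F_eq j (10 * a + ((3 : ℕ) : ℤ) - 6) (4 * e + ((1 : ℕ) : ℤ) + 2) (a - 1) e 7 3 (by norm_num) (by norm_num) (by push_cast; ring) (by push_cast; ring)]
    exact rule_3_1 j a e hj (by omega) (by omega)
  · rw [F_eq j _ _ a e 3 3 (by norm_num) (by norm_num) rfl rfl,
      F_eq j (10 * a + ((3 : ℕ) : ℤ) - 1) (4 * e + ((3 : ℕ) : ℤ) - 1) a e 2 2 (by norm_num) (by norm_num) (by push_cast; ring) (by push_cast; ring),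
      F_eq j (10 * a + ((3 : ℕ) : ℤ) - 1) (4 * e + ((3 : ℕ) : ℤ) + 1) a (e + 1) 2 0 (by norm_num) (by norm_num) (by push_cast; ring) (by push_cast; ring),
      F_eq j (10 * a + ((3 : ℕ) : ℤ) - 2) (4 * e + ((3 : ℕ) : ℤ)) a e 1 3 (by norm_num) (by norm_num) (by push_cast; ring) (by push_cast; ring),
      F_eq j (10 * a + ((3 : ℕ) : ℤ) - 6) (4 * e + ((3 : ℕ) : ℤ) - 2) (a - 1) e 7 1 (by norm_num) (by norm_num) (by push_cast; ring) (by push_cast; ring),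
      F_eq j (10 * a + ((3 : ℕ) : ℤ) - 6) (4 * e + ((3 : ℕ) : ℤ) + 2) (a - 1) (e + 1) 7 1 (by norm_num) (by norm_num) (by push_cast; ring) (by push_cast; ring)]
    exact rule_3_3 j a e hj (by omega) (by omega)
  · rw [F_eq j _ _ a e 4 0 (by norm_num) (by norm_num) rfl rfl,
      F_eq j (10 * a + ((4 : ℕ) : ℤ) - 1) (4 * e + ((0 : ℕ) : ℤ) - 1) a (e - 1) 3 3 (by norm_num) (by norm_num) (by push_cast; ring) (by push_cast; ring),
      F_eq j (10 * a + ((4 : ℕ) : ℤ) - 1) (4 * e + ((0 : ℕ) : ℤ) + 1) a e 3 1 (by norm_num) (by norm_num) (by push_cast; ring) (by push_cast; ring),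
      F_eq j (10 * a + ((4 : ℕ) : ℤ) - 2) (4 * e + ((0 : ℕ) : ℤ)) a e 2 0 (by norm_num) (by norm_num) (by push_cast; ring) (by push_cast; ring),
      F_eq j (10 * a + ((4 : ℕ) : ℤ) - 6) (4 * e + ((0 : ℕ) : ℤ) - 2) (a - 1) (e - 1) 8 2 (by norm_num) (by norm_num) (by push_cast; ring) (by push_cast; ring),
      F_eq j (10 * a + ((4 : ℕ) : ℤ) - 6) (4 * e + ((0 : ℕ) : ℤ) + 2) (a - 1) e 8 2 (by norm_num) (by norm_num) (by push_cast; ring) (by push_cast; ring)]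
    exact rule_4_0 j a e hj (by omega) (by omega)
  · rw [F_eq j _ _ a e 4 2 (by norm_num) (by norm_num) rfl rfl,
      F_eq j (10 * a + ((4 : ℕ) : ℤ) - 1) (4 * e + ((2 : ℕ) : ℤ) - 1) a e 3 1 (by norm_num) (by norm_num) (by push_cast; ring) (by push_cast; ring),
      F_eq j (10 * a + ((4 : ℕ) : ℤ) - 1) (4 * e + ((2 : ℕ) : ℤ) + 1) a e 3 3 (by norm_num) (by norm_num) (by push_cast; ring) (by push_cast; ring),
      F_eq j (10 * a + ((4 : ℕ) : ℤ) - 2) (4 * e + ((2 : ℕ) : ℤ)) a e 2 2 (by norm_num) (by norm_num) (by push_cast; ring) (by push_cast; ring),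
      F_eq j (10 * a + ((4 : ℕ) : ℤ) - 6) (4 * e + ((2 : ℕ) : ℤ) - 2) (a - 1) e 8 0 (by norm_num) (by norm_num) (by push_cast; ring) (by push_cast; ring),
      F_eq j (10 * a + ((4 : ℕ) : ℤ) - 6) (4 * e + ((2 : ℕ) : ℤ) + 2) (a - 1) (e + 1) 8 0 (by norm_num) (by norm_num) (by push_cast; ring) (by push_cast; ring)]
    exact rule_4_2 j a e hj (by omega) (by omega)
  · rw [F_eq j _ _ a e 5 1 (by norm_num) (by norm_num) rfl rfl,
      F_eq j (10 * a + ((5 : ℕ) : ℤ) - 1) (4 * e + ((1 : ℕ) : ℤ) - 1) a e 4 0 (by norm_num) (by norm_num) (by push_cast; ring) (by push_cast; ring),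
      F_eq j (10 * a + ((5 : ℕ) : ℤ) - 1) (4 * e + ((1 : ℕ) : ℤ) + 1) a e 4 2 (by norm_num) (by norm_num) (by push_cast; ring) (by push_cast; ring),
      F_eq j (10 * a + ((5 : ℕ) : ℤ) - 2) (4 * e + ((1 : ℕ) : ℤ)) a e 3 1 (by norm_num) (by norm_num) (by push_cast; ring) (by push_cast; ring),
      F_eq j (10 * a + ((5 : ℕ) : ℤ) - 6) (4 * e + ((1 : ℕ) : ℤ) - 2) (a - 1) (e - 1) 9 3 (by norm_num) (by norm_num) (by push_cast; ring) (by push_cast; ring),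
      F_eq j (10 * a + ((5 : ℕ) : ℤ) - 6) (4 * e + ((1 : ℕ) : ℤ) + 2) (a - 1) e 9 3 (by norm_num) (by norm_num) (by push_cast; ring) (by push_cast; ring)]
    exact rule_5_1 j a e hj (by omega) (by omega)
  · rw [F_eq j _ _ a e 5 3 (by norm_num) (by norm_num) rfl rfl,
      F_eq j (10 * a + ((5 : ℕ) : ℤ) - 1) (4 * e + ((3 : ℕ) : ℤ) - 1) a e 4 2 (by norm_num) (by norm_num) (by push_cast; ring) (by push_cast; ring),
      F_eq j (10 * a + ((5 : ℕ) : ℤ) - 1) (4 * e + ((3 : ℕ) : ℤ) + 1) a (e + 1) 4 0 (by norm_num) (by norm_num) (by push_cast; ring) (by push_cast; ring),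
      F_eq j (10 * a + ((5 : ℕ) : ℤ) - 2) (4 * e + ((3 : ℕ) : ℤ)) a e 3 3 (by norm_num) (by norm_num) (by push_cast; ring) (by push_cast; ring),
      F_eq j (10 * a + ((5 : ℕ) : ℤ) - 6) (4 * e + ((3 : ℕ) : ℤ) - 2) (a - 1) e 9 1 (by norm_num) (by norm_num) (by push_cast; ring) (by push_cast; ring),
      F_eq j (10 * a + ((5 : ℕ) : ℤ) - 6) (4 * e + ((3 : ℕ) : ℤ) + 2) (a - 1) (e + 1) 9 1 (by norm_num) (by norm_num) (by push_cast; ring) (by push_cast; ring)]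
    exact rule_5_3 j a e hj (by omega) (by omega)
  · rw [F_eq j _ _ a e 6 0 (by norm_num) (by norm_num) rfl rfl,
      F_eq j (10 * a + ((6 : ℕ) : ℤ) - 1) (4 * e + ((0 : ℕ) : ℤ) - 1) a (e - 1) 5 3 (by norm_num) (by norm_num) (by push_cast; ring) (by push_cast; ring),
      F_eq j (10 * a + ((6 : ℕ) : ℤ) - 1) (4 * e + ((0 : ℕ) : ℤ) + 1) a e 5 1 (by norm_num) (by norm_num) (by push_cast; ring) (by push_cast; ring),
      F_eq j (10 * a + ((6 : ℕ) : ℤ) - 2) (4 * e + ((0 : ℕ) : ℤ)) a e 4 0 (by norm_num) (by norm_num) (by push_cast; ring) (by push_cast; ring),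
      F_eq j (10 * a + ((6 : ℕ) : ℤ) - 6) (4 * e + ((0 : ℕ) : ℤ) - 2) a (e - 1) 0 2 (by norm_num) (by norm_num) (by push_cast; ring) (by push_cast; ring),
      F_eq j (10 * a + ((6 : ℕ) : ℤ) - 6) (4 * e + ((0 : ℕ) : ℤ) + 2) a e 0 2 (by norm_num) (by norm_num) (by push_cast; ring) (by push_cast; ring)]
    exact rule_6_0 j a e hj (by omega) (by omega)
  · rw [F_eq j _ _ a e 6 2 (by norm_num) (by norm_num) rfl rfl,
      F_eq j (10 * a + ((6 : ℕ) : ℤ) - 1) (4 * e + ((2 : ℕ) : ℤ) - 1) a e 5 1 (by norm_num) (by norm_num) (by push_cast; ring) (by push_cast; ring),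
      F_eq j (10 * a + ((6 : ℕ) : ℤ) - 1) (4 * e + ((2 : ℕ) : ℤ) + 1) a e 5 3 (by norm_num) (by norm_num) (by push_cast; ring) (by push_cast; ring),
      F_eq j (10 * a + ((6 : ℕ) : ℤ) - 2) (4 * e + ((2 : ℕ) : ℤ)) a e 4 2 (by norm_num) (by norm_num) (by push_cast; ring) (by push_cast; ring),
      F_eq j (10 * a + ((6 : ℕ) : ℤ) - 6) (4 * e + ((2 : ℕ) : ℤ) - 2) a e 0 0 (by norm_num) (by norm_num) (by push_cast; ring) (by push_cast; ring),
      F_eq j (10 * a + ((6 : ℕ) : ℤ) - 6) (4 * e + ((2 : ℕ) : ℤ) + 2) a (e + 1) 0 0 (by norm_num) (by norm_num) (by push_cast; ring) (by push_cast; ring)]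
    exact rule_6_2 j a e hj (by omega) (by omega)
  · rw [F_eq j _ _ a e 7 1 (by norm_num) (by norm_num) rfl rfl,
      F_eq j (10 * a + ((7 : ℕ) : ℤ) - 1) (4 * e + ((1 : ℕ) : ℤ) - 1) a e 6 0 (by norm_num) (by norm_num) (by push_cast; ring) (by push_cast; ring),
      F_eq j (10 * a + ((7 : ℕ) : ℤ) - 1) (4 * e + ((1 : ℕ) : ℤ) + 1) a e 6 2 (by norm_num) (by norm_num) (by push_cast; ring) (by push_cast; ring),
      F_eq j (10 * a + ((7 : ℕ) : ℤ) - 2) (4 * e + ((1 : ℕ) : ℤ)) a e 5 1 (by norm_num) (by norm_num) (by push_cast; ring) (by push_cast; ring),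
      F_eq j (10 * a + ((7 : ℕ) : ℤ) - 6) (4 * e + ((1 : ℕ) : ℤ) - 2) a (e - 1) 1 3 (by norm_num) (by norm_num) (by push_cast; ring) (by push_cast; ring),
      F_eq j (10 * a + ((7 : ℕ) : ℤ) - 6) (4 * e + ((1 : ℕ) : ℤ) + 2) a e 1 3 (by norm_num) (by norm_num) (by push_cast; ring) (by push_cast; ring)]
    exact rule_7_1 j a e hj (by omega) (by omega)
  · rw [F_eq j _ _ a e 7 3 (by norm_num) (by norm_num) rfl rfl,
      F_eq j (10 * a + ((7 : ℕ) : ℤ) - 1) (4 * e + ((3 : ℕ) : ℤ) - 1) a e 6 2 (by norm_num) (by norm_num) (by push_cast; ring) (by push_cast; ring),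
      F_eq j (10 * a + ((7 : ℕ) : ℤ) - 1) (4 * e + ((3 : ℕ) : ℤ) + 1) a (e + 1) 6 0 (by norm_num) (by norm_num) (by push_cast; ring) (by push_cast; ring),
      F_eq j (10 * a + ((7 : ℕ) : ℤ) - 2) (4 * e + ((3 : ℕ) : ℤ)) a e 5 3 (by norm_num) (by norm_num) (by push_cast; ring) (by push_cast; ring),
      F_eq j (10 * a + ((7 : ℕ) : ℤ) - 6) (4 * e + ((3 : ℕ) : ℤ) - 2) a e 1 1 (by norm_num) (by norm_num) (by push_cast; ring) (by push_cast; ring),
      F_eq j (10 * a + ((7 : ℕ) : ℤ) - 6) (4 * e + ((3 : ℕ) : ℤ) + 2) a (e + 1) 1 1 (by norm_num) (by norm_num) (by push_cast; ring) (by push_cast; ring)]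
    exact rule_7_3 j a e hj (by omega) (by omega)
  · rw [F_eq j _ _ a e 8 0 (by norm_num) (by norm_num) rfl rfl,
      F_eq j (10 * a + ((8 : ℕ) : ℤ) - 1) (4 * e + ((0 : ℕ) : ℤ) - 1) a (e - 1) 7 3 (by norm_num) (by norm_num) (by push_cast; ring) (by push_cast; ring),
      F_eq j (10 * a + ((8 : ℕ) : ℤ) - 1) (4 * e + ((0 : ℕ) : ℤ) + 1) a e 7 1 (by norm_num) (by norm_num) (by push_cast; ring) (by push_cast; ring),
      F_eq j (10 * a + ((8 : ℕ) : ℤ) - 2) (4 * e + ((0 : ℕ) : ℤ)) a e 6 0 (by norm_num) (by norm_num) (by push_cast; ring) (by push_cast; ring),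
      F_eq j (10 * a + ((8 : ℕ) : ℤ) - 6) (4 * e + ((0 : ℕ) : ℤ) - 2) a (e - 1) 2 2 (by norm_num) (by norm_num) (by push_cast; ring) (by push_cast; ring),
      F_eq j (10 * a + ((8 : ℕ) : ℤ) - 6) (4 * e + ((0 : ℕ) : ℤ) + 2) a e 2 2 (by norm_num) (by norm_num) (by push_cast; ring) (by push_cast; ring)]
    exact rule_8_0 j a e hj (by omega) (by omega)
  · rw [F_eq j _ _ a e 8 2 (by norm_num) (by norm_num) rfl rfl,
      F_eq j (10 * a + ((8 : ℕ) : ℤ) - 1) (4 * e + ((2 : ℕ) : ℤ) - 1) a e 7 1 (by norm_num) (by norm_num) (by push_cast; ring) (by push_cast; ring),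
      F_eq j (10 * a + ((8 : ℕ) : ℤ) - 1) (4 * e + ((2 : ℕ) : ℤ) + 1) a e 7 3 (by norm_num) (by norm_num) (by push_cast; ring) (by push_cast; ring),
      F_eq j (10 * a + ((8 : ℕ) : ℤ) - 2) (4 * e + ((2 : ℕ) : ℤ)) a e 6 2 (by norm_num) (by norm_num) (by push_cast; ring) (by push_cast; ring),
      F_eq j (10 * a + ((8 : ℕ) : ℤ) - 6) (4 * e + ((2 : ℕ) : ℤ) - 2) a e 2 0 (by norm_num) (by norm_num) (by push_cast; ring) (by push_cast; ring),
      F_eq j (10 * a + ((8 : ℕ) : ℤ) - 6) (4 * e + ((2 : ℕ) : ℤ) + 2) a (e + 1) 2 0 (by norm_num) (by norm_num) (by push_cast; ring) (by push_cast; ring)]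
    exact rule_8_2 j a e hj (by omega) (by omega)
  · rw [F_eq j _ _ a e 9 1 (by norm_num) (by norm_num) rfl rfl,
      F_eq j (10 * a + ((9 : ℕ) : ℤ) - 1) (4 * e + ((1 : ℕ) : ℤ) - 1) a e 8 0 (by norm_num) (by norm_num) (by push_cast; ring) (by push_cast; ring),
      F_eq j (10 * a + ((9 : ℕ) : ℤ) - 1) (4 * e + ((1 : ℕ) : ℤ) + 1) a e 8 2 (by norm_num) (by norm_num) (by push_cast; ring) (by push_cast; ring),
      F_eq j (10 * a + ((9 : ℕ) : ℤ) - 2) (4 * e + ((1 : ℕ) : ℤ)) a e 7 1 (by norm_num) (by norm_num) (by push_cast; ring) (by push_cast; ring),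
      F_eq j (10 * a + ((9 : ℕ) : ℤ) - 6) (4 * e + ((1 : ℕ) : ℤ) - 2) a (e - 1) 3 3 (by norm_num) (by norm_num) (by push_cast; ring) (by push_cast; ring),
      F_eq j (10 * a + ((9 : ℕ) : ℤ) - 6) (4 * e + ((1 : ℕ) : ℤ) + 2) a e 3 3 (by norm_num) (by norm_num) (by push_cast; ring) (by push_cast; ring)]
    exact rule_9_1 j a e hj (by omega) (by omega)
  · rw [F_eq j _ _ a e 9 3 (by norm_num) (by norm_num) rfl rfl,
      F_eq j (10 * a + ((9 : ℕ) : ℤ) - 1) (4 * e + ((3 : ℕ) : ℤ) - 1) a e 8 2 (by norm_num) (by norm_num) (by push_cast; ring) (by push_cast; ring),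
      F_eq j (10 * a + ((9 : ℕ) : ℤ) - 1) (4 * e + ((3 : ℕ) : ℤ) + 1) a (e + 1) 8 0 (by norm_num) (by norm_num) (by push_cast; ring) (by push_cast; ring),
      F_eq j (10 * a + ((9 : ℕ) : ℤ) - 2) (4 * e + ((3 : ℕ) : ℤ)) a e 7 3 (by norm_num) (by norm_num) (by push_cast; ring) (by push_cast; ring),
      F_eq j (10 * a + ((9 : ℕ) : ℤ) - 6) (4 * e + ((3 : ℕ) : ℤ) - 2) a e 3 1 (by norm_num) (by norm_num) (by push_cast; ring) (by push_cast; ring),
      F_eq j (10 * a + ((9 : ℕ) : ℤ) - 6) (4 * e + ((3 : ℕ) : ℤ) + 2) a (e + 1) 3 1 (by norm_num) (by norm_num) (by push_cast; ring) (by push_cast; ring)]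
    exact rule_9_3 j a e hj (by omega) (by omega)

theorem F_rule0 (j t : ℤ) (hj : 0 ≤ j) (ht : 0 ≤ t) (hL : t < 20 * j + 34)
    (hp : (t - 0) % 2 = 0) :
    F j t 0 ↔ ¬ F j (t - 1) 1 ∧ ¬ F j (t - 1) 1 ∧ ¬ F j (t - 2) 0 ∧
      ¬ F j (t - 6) 2 ∧ ¬ F j (t - 6) 2 := by
  obtain ⟨a, r, hr9, rfl⟩ : ∃ (a : ℤ) (r : ℕ), r < 10 ∧ t = 10 * a + r :=
    ⟨t / 10, (t % 10).toNat, by omega, by omega⟩
  interval_cases r <;> try omega
  · rw [F_eq j _ 0 a 0 0 0 (by norm_num) (by norm_num) rfl (by norm_num),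
      F_eq j (10 * a + ((0 : ℕ) : ℤ) - 1) 1 (a - 1) 0 9 1 (by norm_num) (by norm_num) (by push_cast; ring) (by norm_num),
      F_eq j (10 * a + ((0 : ℕ) : ℤ) - 2) 0 (a - 1) 0 8 0 (by norm_num) (by norm_num) (by push_cast; ring) (by norm_num),
      F_eq j (10 * a + ((0 : ℕ) : ℤ) - 6) 2 (a - 1) 0 4 2 (by norm_num) (by norm_num) (by push_cast; ring) (by norm_num)]
    exact centre_0_0 j a hj (by omega) (by omega)
  · rw [F_eq j _ 0 a 0 2 0 (by norm_num) (by norm_num) rfl (by norm_num),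
      F_eq j (10 * a + ((2 : ℕ) : ℤ) - 1) 1 a 0 1 1 (by norm_num) (by norm_num) (by push_cast; ring) (by norm_num),
      F_eq j (10 * a + ((2 : ℕ) : ℤ) - 2) 0 a 0 0 0 (by norm_num) (by norm_num) (by push_cast; ring) (by norm_num),
      F_eq j (10 * a + ((2 : ℕ) : ℤ) - 6) 2 (a - 1) 0 6 2 (by norm_num) (by norm_num) (by push_cast; ring) (by norm_num)]
    exact centre_2_0 j a hj (by omega) (by omega)
  · rw [F_eq j _ 0 a 0 4 0 (by norm_num) (by norm_num) rfl (by norm_num),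
      F_eq j (10 * a + ((4 : ℕ) : ℤ) - 1) 1 a 0 3 1 (by norm_num) (by norm_num) (by push_cast; ring) (by norm_num),
      F_eq j (10 * a + ((4 : ℕ) : ℤ) - 2) 0 a 0 2 0 (by norm_num) (by norm_num) (by push_cast; ring) (by norm_num),
      F_eq j (10 * a + ((4 : ℕ) : ℤ) - 6) 2 (a - 1) 0 8 2 (by norm_num) (by norm_num) (by push_cast; ring) (by norm_num)]
    exact centre_4_0 j a hj (by omega) (by omega)
  · rw [F_eq j _ 0 a 0 6 0 (by norm_num) (by norm_num) rfl (by norm_num),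
      F_eq j (10 * a + ((6 : ℕ) : ℤ) - 1) 1 a 0 5 1 (by norm_num) (by norm_num) (by push_cast; ring) (by norm_num),
      F_eq j (10 * a + ((6 : ℕ) : ℤ) - 2) 0 a 0 4 0 (by norm_num) (by norm_num) (by push_cast; ring) (by norm_num),
      F_eq j (10 * a + ((6 : ℕ) : ℤ) - 6) 2 a 0 0 2 (by norm_num) (by norm_num) (by push_cast; ring) (by norm_num)]
    exact centre_6_0 j a hj (by omega) (by omega)
  · rw [F_eq j _ 0 a 0 8 0 (by norm_num) (by norm_num) rfl (by norm_num),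
      F_eq j (10 * a + ((8 : ℕ) : ℤ) - 1) 1 a 0 7 1 (by norm_num) (by norm_num) (by push_cast; ring) (by norm_num),
      F_eq j (10 * a + ((8 : ℕ) : ℤ) - 2) 0 a 0 6 0 (by norm_num) (by norm_num) (by push_cast; ring) (by norm_num),
      F_eq j (10 * a + ((8 : ℕ) : ℤ) - 6) 2 a 0 2 2 (by norm_num) (by norm_num) (by push_cast; ring) (by norm_num)]
    exact centre_8_0 j a hj (by omega) (by omega)

theorem F_rule1 (j t : ℤ) (hj : 0 ≤ j) (ht : 0 ≤ t) (hL : t < 20 * j + 34)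
    (hp : (t - 1) % 2 = 0) :
    F j t 1 ↔ ¬ F j (t - 1) 0 ∧ ¬ F j (t - 1) 2 ∧ ¬ F j (t - 2) 1 ∧
      ¬ F j (t - 6) 1 ∧ ¬ F j (t - 6) 3 := by
  obtain ⟨a, r, hr9, rfl⟩ : ∃ (a : ℤ) (r : ℕ), r < 10 ∧ t = 10 * a + r :=
    ⟨t / 10, (t % 10).toNat, by omega, by omega⟩
  interval_cases r <;> try omega
  · rw [F_eq j _ 1 a 0 1 1 (by norm_num) (by norm_num) rfl (by norm_num),
      F_eq j (10 * a + ((1 : ℕ) : ℤ) - 1) 0 a 0 0 0 (by norm_num) (by norm_num) (by push_cast; ring) (by norm_num),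
      F_eq j (10 * a + ((1 : ℕ) : ℤ) - 1) 2 a 0 0 2 (by norm_num) (by norm_num) (by push_cast; ring) (by norm_num),
      F_eq j (10 * a + ((1 : ℕ) : ℤ) - 2) 1 (a - 1) 0 9 1 (by norm_num) (by norm_num) (by push_cast; ring) (by norm_num),
      F_eq j (10 * a + ((1 : ℕ) : ℤ) - 6) 1 (a - 1) 0 5 1 (by norm_num) (by norm_num) (by push_cast; ring) (by norm_num),
      F_eq j (10 * a + ((1 : ℕ) : ℤ) - 6) 3 (a - 1) 0 5 3 (by norm_num) (by norm_num) (by push_cast; ring) (by norm_num)]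
    exact centre_1_1 j a hj (by omega) (by omega)
  · rw [F_eq j _ 1 a 0 3 1 (by norm_num) (by norm_num) rfl (by norm_num),
      F_eq j (10 * a + ((3 : ℕ) : ℤ) - 1) 0 a 0 2 0 (by norm_num) (by norm_num) (by push_cast; ring) (by norm_num),
      F_eq j (10 * a + ((3 : ℕ) : ℤ) - 1) 2 a 0 2 2 (by norm_num) (by norm_num) (by push_cast; ring) (by norm_num),
      F_eq j (10 * a + ((3 : ℕ) : ℤ) - 2) 1 a 0 1 1 (by norm_num) (by norm_num) (by push_cast; ring) (by norm_num),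
      F_eq j (10 * a + ((3 : ℕ) : ℤ) - 6) 1 (a - 1) 0 7 1 (by norm_num) (by norm_num) (by push_cast; ring) (by norm_num),
      F_eq j (10 * a + ((3 : ℕ) : ℤ) - 6) 3 (a - 1) 0 7 3 (by norm_num) (by norm_num) (by push_cast; ring) (by norm_num)]
    exact centre_3_1 j a hj (by omega) (by omega)
  · rw [F_eq j _ 1 a 0 5 1 (by norm_num) (by norm_num) rfl (by norm_num),
      F_eq j (10 * a + ((5 : ℕ) : ℤ) - 1) 0 a 0 4 0 (by norm_num) (by norm_num) (by push_cast; ring) (by norm_num),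
      F_eq j (10 * a + ((5 : ℕ) : ℤ) - 1) 2 a 0 4 2 (by norm_num) (by norm_num) (by push_cast; ring) (by norm_num),
      F_eq j (10 * a + ((5 : ℕ) : ℤ) - 2) 1 a 0 3 1 (by norm_num) (by norm_num) (by push_cast; ring) (by norm_num),
      F_eq j (10 * a + ((5 : ℕ) : ℤ) - 6) 1 (a - 1) 0 9 1 (by norm_num) (by norm_num) (by push_cast; ring) (by norm_num),
      F_eq j (10 * a + ((5 : ℕ) : ℤ) - 6) 3 (a - 1) 0 9 3 (by norm_num) (by norm_num) (by push_cast; ring) (by norm_num)]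
    exact centre_5_1 j a hj (by omega) (by omega)
  · rw [F_eq j _ 1 a 0 7 1 (by norm_num) (by norm_num) rfl (by norm_num),
      F_eq j (10 * a + ((7 : ℕ) : ℤ) - 1) 0 a 0 6 0 (by norm_num) (by norm_num) (by push_cast; ring) (by norm_num),
      F_eq j (10 * a + ((7 : ℕ) : ℤ) - 1) 2 a 0 6 2 (by norm_num) (by norm_num) (by push_cast; ring) (by norm_num),
      F_eq j (10 * a + ((7 : ℕ) : ℤ) - 2) 1 a 0 5 1 (by norm_num) (by norm_num) (by push_cast; ring) (by norm_num),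
      F_eq j (10 * a + ((7 : ℕ) : ℤ) - 6) 1 a 0 1 1 (by norm_num) (by norm_num) (by push_cast; ring) (by norm_num),
      F_eq j (10 * a + ((7 : ℕ) : ℤ) - 6) 3 a 0 1 3 (by norm_num) (by norm_num) (by push_cast; ring) (by norm_num)]
    exact centre_7_1 j a hj (by omega) (by omega)
  · rw [F_eq j _ 1 a 0 9 1 (by norm_num) (by norm_num) rfl (by norm_num),
      F_eq j (10 * a + ((9 : ℕ) : ℤ) - 1) 0 a 0 8 0 (by norm_num) (by norm_num) (by push_cast; ring) (by norm_num),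
      F_eq j (10 * a + ((9 : ℕ) : ℤ) - 1) 2 a 0 8 2 (by norm_num) (by norm_num) (by push_cast; ring) (by norm_num),
      F_eq j (10 * a + ((9 : ℕ) : ℤ) - 2) 1 a 0 7 1 (by norm_num) (by norm_num) (by push_cast; ring) (by norm_num),
      F_eq j (10 * a + ((9 : ℕ) : ℤ) - 6) 1 a 0 3 1 (by norm_num) (by norm_num) (by push_cast; ring) (by norm_num),
      F_eq j (10 * a + ((9 : ℕ) : ℤ) - 6) 3 a 0 3 3 (by norm_num) (by norm_num) (by push_cast; ring) (by norm_num)]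
    exact centre_9_1 j a hj (by omega) (by omega)

/-- the last six rows of a cycle, as rows of the next cycle -/
theorem F_shift (j t d : ℤ) (hj : 1 ≤ j) (ht : -6 ≤ t) (ht0 : t < 0) (hd : 0 ≤ d)
    (hp : (t - d) % 2 = 0) : F j t d ↔ F (j - 1) (20 * j + 14 + t) d := by
  obtain ⟨e, i, hi3, rfl⟩ : ∃ (e : ℤ) (i : ℕ), i < 4 ∧ d = 4 * e + i :=
    ⟨d / 4, (d % 4).toNat, by omega, by omega⟩
  obtain rfl | rfl | rfl | rfl | rfl | rfl : t = -6 ∨ t = -5 ∨ t = -4 ∨ t = -3 ∨ t = -2 ∨ t = -1 := by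
    omega
  · interval_cases i <;> try omega
    · rw [F_eq j (-6) _ (-1) e 4 0 (by norm_num) (by norm_num) (by norm_num) rfl,
        F_eq (j - 1) _ _ (2 * j) e 8 0 (by norm_num) (by norm_num) (by push_cast; ring) rfl]
      simp [G, isNear, near, far]
      rcases lt_or_ge e j with h | h
      · omega
      · rcases le_or_gt e (j + 1) with h' | h'
        · obtain h1 | h1 : e = j ∨ e = j + 1 := by omega
          · subst h1; omega
          · subst h1; omega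
        · omega
    · rw [F_eq j (-6) _ (-1) e 4 2 (by norm_num) (by norm_num) (by norm_num) rfl,
        F_eq (j - 1) _ _ (2 * j) e 8 2 (by norm_num) (by norm_num) (by push_cast; ring) rfl]
      simp [G, isNear, near, far]
      rcases lt_or_ge e j with h | h
      · omega
      · rcases le_or_gt e (j + 1) with h' | h'
        · obtain h1 | h1 : e = j ∨ e = j + 1 := by omega
          · subst h1; omega
          · subst h1; omega
        · omega
  · interval_cases i <;> try omega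
    · rw [F_eq j (-5) _ (-1) e 5 1 (by norm_num) (by norm_num) (by norm_num) rfl,
        F_eq (j - 1) _ _ (2 * j) e 9 1 (by norm_num) (by norm_num) (by push_cast; ring) rfl]
      simp [G, isNear, near, far]
      rcases lt_or_ge e j with h | h
      · omega
      · rcases le_or_gt e (j + 1) with h' | h'
        · obtain h1 | h1 : e = j ∨ e = j + 1 := by omega
          · subst h1; omega
          · subst h1; omega
        · omega
    · rw [F_eq j (-5) _ (-1) e 5 3 (by norm_num) (by norm_num) (by norm_num) rfl,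
        F_eq (j - 1) _ _ (2 * j) e 9 3 (by norm_num) (by norm_num) (by push_cast; ring) rfl]
      simp [G, isNear, near, far]
      rcases lt_or_ge e j with h | h
      · omega
      · rcases le_or_gt e (j + 1) with h' | h'
        · obtain h1 | h1 : e = j ∨ e = j + 1 := by omega
          · subst h1; omega
          · subst h1; omega
        · omega
  · interval_cases i <;> try omega
    · rw [F_eq j (-4) _ (-1) e 6 0 (by norm_num) (by norm_num) (by norm_num) rfl,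
        F_eq (j - 1) _ _ (2 * j + 1) e 0 0 (by norm_num) (by norm_num) (by push_cast; ring) rfl]
      simp [G, isNear, near, far]
      rcases lt_or_ge e j with h | h
      · omega
      · rcases le_or_gt e (j + 1) with h' | h'
        · obtain h1 | h1 : e = j ∨ e = j + 1 := by omega
          · subst h1; omega
          · subst h1; omega
        · omega
    · rw [F_eq j (-4) _ (-1) e 6 2 (by norm_num) (by norm_num) (by norm_num) rfl,
        F_eq (j - 1) _ _ (2 * j + 1) e 0 2 (by norm_num) (by norm_num) (by push_cast; ring) rfl]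
      simp [G, isNear, near, far]
      rcases lt_or_ge e j with h | h
      · omega
      · rcases le_or_gt e (j + 1) with h' | h'
        · obtain h1 | h1 : e = j ∨ e = j + 1 := by omega
          · subst h1; omega
          · subst h1; omega
        · omega
  · interval_cases i <;> try omega
    · rw [F_eq j (-3) _ (-1) e 7 1 (by norm_num) (by norm_num) (by norm_num) rfl,
        F_eq (j - 1) _ _ (2 * j + 1) e 1 1 (by norm_num) (by norm_num) (by push_cast; ring) rfl]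
      simp [G, isNear, near, far]
      rcases lt_or_ge e j with h | h
      · omega
      · rcases le_or_gt e (j + 1) with h' | h'
        · obtain h1 | h1 : e = j ∨ e = j + 1 := by omega
          · subst h1; omega
          · subst h1; omega
        · omega
    · rw [F_eq j (-3) _ (-1) e 7 3 (by norm_num) (by norm_num) (by norm_num) rfl,
        F_eq (j - 1) _ _ (2 * j + 1) e 1 3 (by norm_num) (by norm_num) (by push_cast; ring) rfl]
      simp [G, isNear, near, far]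
      rcases lt_or_ge e j with h | h
      · omega
      · rcases le_or_gt e (j + 1) with h' | h'
        · obtain h1 | h1 : e = j ∨ e = j + 1 := by omega
          · subst h1; omega
          · subst h1; omega
        · omega
  · interval_cases i <;> try omega
    · rw [F_eq j (-2) _ (-1) e 8 0 (by norm_num) (by norm_num) (by norm_num) rfl,
        F_eq (j - 1) _ _ (2 * j + 1) e 2 0 (by norm_num) (by norm_num) (by push_cast; ring) rfl]
      simp [G, isNear, near, far]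
      rcases lt_or_ge e j with h | h
      · omega
      · rcases le_or_gt e (j + 1) with h' | h'
        · obtain h1 | h1 : e = j ∨ e = j + 1 := by omega
          · subst h1; omega
          · subst h1; omega
        · omega
    · rw [F_eq j (-2) _ (-1) e 8 2 (by norm_num) (by norm_num) (by norm_num) rfl,
        F_eq (j - 1) _ _ (2 * j + 1) e 2 2 (by norm_num) (by norm_num) (by push_cast; ring) rfl]
      simp [G, isNear, near, far]
      rcases lt_or_ge e j with h | h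
      · omega
      · rcases le_or_gt e (j + 1) with h' | h'
        · obtain h1 | h1 : e = j ∨ e = j + 1 := by omega
          · subst h1; omega
          · subst h1; omega
        · omega
  · interval_cases i <;> try omega
    · rw [F_eq j (-1) _ (-1) e 9 1 (by norm_num) (by norm_num) (by norm_num) rfl,
        F_eq (j - 1) _ _ (2 * j + 1) e 3 1 (by norm_num) (by norm_num) (by push_cast; ring) rfl]
      simp [G, isNear, near, far]
      rcases lt_or_ge e j with h | h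
      · omega
      · rcases le_or_gt e (j + 1) with h' | h'
        · obtain h1 | h1 : e = j ∨ e = j + 1 := by omega
          · subst h1; omega
          · subst h1; omega
        · omega
    · rw [F_eq j (-1) _ (-1) e 9 3 (by norm_num) (by norm_num) (by norm_num) rfl,
        F_eq (j - 1) _ _ (2 * j + 1) e 3 3 (by norm_num) (by norm_num) (by push_cast; ring) rfl]
      simp [G, isNear, near, far]
      rcases lt_or_ge e j with h | h
      · omega
      · rcases le_or_gt e (j + 1) with h' | h'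
        · obtain h1 | h1 : e = j ∨ e = j + 1 := by omega
          · subst h1; omega
          · subst h1; omega
        · omega

/-- the pattern far away from the diagonal, in terms of `y` -/
theorem F_far (j t d q y : ℤ) (hd : 4 * j + 8 ≤ d)
    (hs : 10 * q + 24 * j + 18 + t - d = 2 * y) :
    F j t d ↔ (y % 5 = 0 ∧ d % 2 = 0) ∨ (y % 5 = 2 ∧ d % 2 = 1) := by
  obtain ⟨a, r, hr9, rfl⟩ : ∃ (a : ℤ) (r : ℕ), r < 10 ∧ t = 10 * a + r :=
    ⟨t / 10, (t % 10).toNat, by omega, by omega⟩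
  obtain ⟨e, i, hi3, rfl⟩ : ∃ (e : ℤ) (i : ℕ), i < 4 ∧ d = 4 * e + i :=
    ⟨d / 4, (d % 4).toNat, by omega, by omega⟩
  rw [F_eq j _ _ a e r i hr9 hi3 rfl rfl]
  have hn : ∀ r i : ℕ, ¬ isNear j a e r i := by
    intro r i
    unfold isNear
    omega
  simp only [G, hn, false_and, false_or, not_false_eq_true, true_and]
  interval_cases r <;> interval_cases i <;> simp [far] <;> omega

end Pool.Agent.R186.Sub2D
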